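import Pool.Agent.Lib.MP_75f8eb_an.Final

namespace Pool.Agent.Results.MP_75f8eb_an.OneDimensional

open Pool.Agent.KPP

/-- **One-dimensionality of quasi-concave entire solutions of Fisher-KPP equations.**
Let `f` be any Fisher-KPP reaction term (`C¹([0,1])`, `f(0) = f(1) = 0`, `f'(0) > 0` and
`0 < f(s) ≤ f'(0) s` on `(0,1)`) and let `v : ℝ × ℝ^N → [0,1]` be an entire solution of
`∂ₜ v = Δ v + f(v)`. At every time `t` at which `v(t,·)` is quasi-concave, `v(t,·)` is
one-dimensional. In particular an entire solution which is quasi-concave at every time is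
one-dimensional at every time. -/
theorem result {N : ℕ} (hN : 1 ≤ N) {f : ℝ → ℝ} (hf : IsKPP f)
    {v : ℝ → EuclideanSpace ℝ (Fin N) → ℝ} (hv : IsEntire N f v) (t : ℝ)
    (hq : IsQuasiConcave (v t)) : IsOneDimensional (v t) :=
  one_dim hf hv hN t hq

end Pool.Agent.Results.MP_75f8eb_an.OneDimensional
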